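import Pool.Agent.TH877.PA.Fin2
import Pool.Agent.TH877.PA.Pre
import Pool.Agent.TH877.PA.Every

set_option autoImplicit false

/-! # Residue classes without small primes and without small products of two primes

Part 1: for a modulus `d` with `d ≤ A φ(d)` and without prime factors between
`exp (log₂ d / log₃ d)` and `log d`, every interval `(M, M + d^θ]` contains some `a` prime to `d`
such that `a + k d` is not a prime for `0 ≤ k ≤ c log d (log₂ d)² log₄ d / (log₃ d)²` and has at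
least three prime factors (counted with multiplicity) for `0 ≤ k ≤ c log d log₂ d`.
Part 2: for every large modulus, the same with `k ≤ c (φ(d) / d) log d log₂ d` and
`k ≤ c (φ(d) / d) log d (log₂ d)^{1/3}`. -/

namespace Pool.Agent.Results.MP_458f0b_nt.AlmostPrimeFreeClasses

open Pool.Agent.TH877.PA

theorem preD (A : ℝ) (hA : 1 ≤ A) : PreD A := by
  intro ε hε
  exact presieve_d ε A hε hA

theorem result :
    (∀ A θ : ℝ, 0 < θ → θ ≤ 1 → ∃ c : ℝ, 0 < c ∧ ∃ d₀ : ℕ, ∀ d : ℕ, d₀ ≤ d →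
      (d : ℝ) ≤ A * (d.totient : ℝ) →
      (∀ p : ℕ, p.Prime → p ∣ d → (p : ℝ) ≤ Real.log d →
        (p : ℝ) ≤ Real.exp (Real.log (Real.log d) / Real.log (Real.log (Real.log d)))) →
      ∀ M : ℝ, 0 ≤ M → ∃ a : ℕ, M < a ∧ (a : ℝ) ≤ M + (d : ℝ) ^ θ ∧ Nat.Coprime a d ∧
        (∀ k : ℕ, (k : ℝ) ≤ c * (Real.log d * (Real.log (Real.log d)) ^ 2 *
            Real.log (Real.log (Real.log (Real.log d))) /
              (Real.log (Real.log (Real.log d))) ^ 2) → ¬ (a + k * d).Prime) ∧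
        ∀ k : ℕ, (k : ℝ) ≤ c * (Real.log d * Real.log (Real.log d)) →
          3 ≤ (a + k * d).primeFactorsList.length) ∧
    ∀ θ : ℝ, 0 < θ → θ ≤ 1 → ∃ c : ℝ, 0 < c ∧ ∃ d₀ : ℕ, ∀ d : ℕ, d₀ ≤ d →
      ∀ M : ℝ, 0 ≤ M → ∃ a : ℕ, M < a ∧ (a : ℝ) ≤ M + (d : ℝ) ^ θ ∧ Nat.Coprime a d ∧
        (∀ k : ℕ, (k : ℝ) ≤ c * ((d.totient : ℝ) / d * (Real.log d * Real.log (Real.log d))) →
          ¬ (a + k * d).Prime) ∧
        ∀ k : ℕ, (k : ℝ) ≤ c * ((d.totient : ℝ) / d *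
            (Real.log d * Real.log (Real.log d) ^ (1 / 3 : ℝ))) →
          3 ≤ (a + k * d).primeFactorsList.length := by
  refine ⟨fun A θ h0 h1 => ?_, fun θ h0 h1 => main_every θ h0 h1⟩
  obtain ⟨c, hc, d₀, h⟩ := main_ap (max A 1) θ h0 h1 (preD _ (le_max_right _ _))
  refine ⟨c, hc, d₀, fun d hd hdA hdm M hM => ?_⟩
  exact h d hd (hdA.trans (mul_le_mul_of_nonneg_right (le_max_left _ _) (Nat.cast_nonneg _)))
    hdm M hM

end Pool.Agent.Results.MP_458f0b_nt.AlmostPrimeFreeClasses
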