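import Pool.Agent.Results.MP_5b0a7e_nt.ThinFamilyModuli
import Pool.Agent.TH872.GQ.Fam

/-!
# The distribution of the least primes in the residue classes to quadratic moduli at integers with restricted digits

Definitions used (in `Pool.Agent.TH872.GQ`): `S b D k`: the integers below `b ^ k` whose `i`-th digit in base `b`
lies in `D i`, for all `i < k`; `value κ β c n = c + κ n ^ 2 + β n`.
-/

set_option autoImplicit false

namespace Pool.Agent.Results.MP_458f0b_nt.QuadraticModuli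

open Finset Pool.Agent.TH872.GQ

open Classical in
/-- The number of the `a` with `0 ≤ a < d` and `gcd(a, d) = 1` for which no prime `p ≤ y` is congruent to `a` modulo
`d`; for `d ≥ 2` this is the number of the reduced classes with `p(d, a) > y`. -/
noncomputable def late (d : ℕ) (y : ℝ) : ℕ :=
  ((range d).filter (fun a => Nat.Coprime a d ∧ ∀ p : ℕ, p.Prime → (p : ℝ) ≤ y → ¬ p % d = a)).card

/-- `ψ(y; d, a) = ∑_{n ≤ y, n ≡ a mod d} Λ(n)` for `0 ≤ a < d` -/
noncomputable def psiAP (y : ℝ) (d a : ℕ) : ℝ :=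
  ∑ n ∈ (Icc 1 ⌊y⌋₊).filter (fun n => n % d = a), ArithmeticFunction.vonMangoldt n

open Classical in
/-- The number of the `a` with `0 ≤ a < d` and `gcd(a, d) = 1` with
`|ψ(lam φ(d) log d; d, a) - lam log d| ≥ η lam log d`. -/
noncomputable def off (d : ℕ) (lam η : ℝ) : ℕ :=
  ((range d).filter (fun a => Nat.Coprime a d ∧ η * (lam * Real.log d) ≤
    |psiAP (lam * (Nat.totient d * Real.log d)) d a - lam * Real.log d|)).card

/-- For all real `1 ≤ lam ≤ (log d) ^ A`: `p(d, a) > lam φ(d) log d` for at most `(1 + ε) φ(d) / lam` of the reduced classes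
`a`, and for all `η > 0` at most `(1 + ε) φ(d) / (η² lam)` of the reduced classes `a` have
`|ψ(lam φ(d) log d; d, a) - lam log d| ≥ η lam log d`. -/
def Good (ε : ℝ) (A d : ℕ) : Prop :=
  ∀ lam : ℝ, 1 ≤ lam → lam ≤ Real.log d ^ A →
    (late d (lam * (Nat.totient d * Real.log d)) : ℝ) ≤ (1 + ε) * Nat.totient d / lam ∧
    ∀ η : ℝ, 0 < η → (off d lam η : ℝ) ≤ (1 + ε) * Nat.totient d / (lam * η ^ 2)

open Classical in
/-- Let `b ≥ 2`, integers `κ ≠ 0` and `β`, and `B`, `A`, `U` and `0 < ε ≤ 1` be fixed, and let `k` be large. Let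
`D 0, …, D (k - 1)` be arbitrary sets of at least two digits in base `b`, let `S` be the set of the integers below
`b ^ k` whose `i`-th digit lies in `D i` for all `i < k`, and let `c` be an arbitrary integer with `|c| ≤ B b ^ (2 k)`.
Then all the moduli `d = c + κ n ^ 2 + β n`, `n ∈ S`, which are positive, except for those for at most `#S / k ^ U` of the
`n ∈ S`, satisfy for ALL real `lam` with `1 ≤ lam ≤ (log d) ^ A`: the least prime `p(d, a)` is at most
`lam φ(d) log d` for all but at most `(1 + ε) φ(d) / lam` of the reduced classes `a` modulo `d` (for `lam = C log d`: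
`p(d, a) ≤ C φ(d) (log d)²` for all but `(1 + ε) φ(d) / (C log d)` of the classes), and
`|ψ(lam φ(d) log d; d, a) - lam log d| < η lam log d` for all but at most `(1 + ε) φ(d) / (η² lam)` of the reduced
classes, for all `η > 0`. -/
theorem result (b B A U : ℕ) (hb : 2 ≤ b) (κ β : ℤ) (hκ : κ ≠ 0) (ε : ℝ) (hε : 0 < ε) (hε1 : ε ≤ 1) :
    ∃ k₀ : ℕ, ∀ k : ℕ, k₀ ≤ k → ∀ D : ℕ → Finset ℕ, (∀ i < k, D i ⊆ range b ∧ 2 ≤ (D i).card) →
      ∀ c : ℤ, |c| ≤ B * (b : ℤ) ^ (2 * k) →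
      (((S b D k).filter (fun n => 0 < value κ β c n ∧ ¬ Good ε A (value κ β c n).toNat)).card : ℝ) ≤
        (S b D k).card / (k : ℝ) ^ U := by
  obtain ⟨h, B', k1, hh, hB1, hBB, hfam⟩ := fam b hb κ β hκ B
  obtain ⟨W, k2, hsm⟩ := small b hb κ β hκ B' U
  obtain ⟨n3, h3⟩ := Pool.Agent.Results.MP_5b0a7e_nt.ThinFamilyModuli.first h 1 (max (max W A) 1) (U + 1) ε hε hε1
  obtain ⟨n5, h5⟩ := Pool.Agent.H373R2.T7.ev_log' (max (max W A) 1) 4
  refine ⟨k1 + k2 + n3 + n5 + 4, fun k hk D hD c hc => ?_⟩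
  obtain ⟨f1, f2, f3, f4⟩ := hfam k (by omega) D hD c hc
  obtain ⟨N, hN⟩ : ∃ N : ℕ, N = B' * b ^ (2 * k) := ⟨_, rfl⟩
  obtain ⟨V, hV⟩ : ∃ V, V = max (max W A) 1 := ⟨_, rfl⟩
  have hVW : W ≤ V := by rw [hV]; exact (le_max_left _ _).trans (le_max_left _ _)
  have hVA : A ≤ V := by rw [hV]; exact (le_max_right _ _).trans (le_max_left _ _)
  rw [← hV] at h3 h5
  have hk1 : (1 : ℝ) ≤ k := by exact_mod_cast (by omega : 1 ≤ k)
  have hkN : k ≤ N := by
    rw [hN]
    calc k ≤ 2 * k := by omega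
      _ ≤ b ^ (2 * k) := (Nat.lt_pow_self (by omega)).le
      _ ≤ _ := Nat.le_mul_of_pos_left _ (by omega)
  have r1 := hsm V hVW k (by omega) D hD c (fun n => 0 < value κ β c n ∧
    ((value κ β c n : ℤ) : ℝ) * Real.log ((B' * b ^ (2 * k) : ℕ) : ℝ) ^ V < ((B' * b ^ (2 * k) : ℕ) : ℝ)) (fun n hn => hn)
  rw [← hN] at f1 f2 f3 r1
  have hfc : Fintype.card {n // n ∈ S b D k} = (S b D k).card := Fintype.card_coe _
  have r2 := h3 N (by omega) {n // n ∈ S b D k} (fun i => value κ β c i.1) f1 f2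
  rw [hfc] at r2
  have r3 := r2.trans (pow_of_log _ _ (Nat.cast_nonneg _) k (U + 1) (by omega) f3)
  unfold Pool.Agent.Results.MP_5b0a7e_nt.ThinFamilyModuli.exceptions at r3
  have hN0 : (0 : ℝ) < N := by exact_mod_cast (by omega : 0 < N)
  have h5' := h5 N (by omega)
  have hbig : ∀ v : ℤ, 0 < v → (N : ℝ) ≤ (v : ℝ) * Real.log N ^ V → 1 ≤ Real.log (v.toNat : ℝ) := by
    intro v hv0 hv
    have e1 : (v.toNat : ℝ) = (v : ℝ) := by
      have : ((v.toNat : ℕ) : ℤ) = v := Int.toNat_of_nonneg hv0.le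
      exact_mod_cast this
    have hvr : (0 : ℝ) < v := by exact_mod_cast hv0
    have hs0 : 0 < Real.sqrt N := Real.sqrt_pos.2 hN0
    have e2 : 4 * (N : ℝ) ≤ (v : ℝ) * Real.sqrt N := by
      calc 4 * (N : ℝ) ≤ 4 * ((v : ℝ) * Real.log N ^ V) := by linarith
        _ = (v : ℝ) * (4 * Real.log N ^ V) := by ring
        _ ≤ (v : ℝ) * Real.sqrt N := mul_le_mul_of_nonneg_left h5' hvr.le
    have hss : Real.sqrt N * Real.sqrt N = N := Real.mul_self_sqrt hN0.le
    have e3 : 4 * Real.sqrt N ≤ v := by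
      have : 4 * Real.sqrt N * Real.sqrt N ≤ v * Real.sqrt N := by
        rw [mul_assoc, hss]
        exact e2
      exact le_of_mul_le_mul_right this hs0
    have e4 : 1 ≤ Real.sqrt N := by
      rw [show (1 : ℝ) = Real.sqrt 1 by simp]
      exact Real.sqrt_le_sqrt (by exact_mod_cast (by omega : 1 ≤ N))
    rw [e1, ← Real.log_exp 1]
    apply Real.log_le_log (Real.exp_pos 1)
    linarith [Real.exp_one_lt_d9]
  have r4 := conv (S b D k) (fun n => 0 < value κ β c n ∧ (N : ℝ) ≤ ((value κ β c n : ℤ) : ℝ) * Real.log N ^ V ∧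
    ¬ Good ε A (value κ β c n).toNat) _ (fun i hi => ⟨hi.1, hi.2.1, fun hg => hi.2.2 (by
      intro lam hl1 hl2
      exact hg lam hl1 (hl2.trans (pow_le_pow_right₀ (hbig _ hi.1 hi.2.1) hVA)))⟩) _ r3
  refine add_small (S b D k) _ _ _ k U (by omega) ?_ r1 r4
  intro n _ hn
  rcases lt_or_ge (((value κ β c n : ℤ) : ℝ) * Real.log N ^ V) N with h6 | h6
  · exact Or.inl ⟨hn.1, h6⟩
  · exact Or.inr ⟨hn.1, h6, hn.2⟩

end Pool.Agent.Results.MP_458f0b_nt.QuadraticModuli
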