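import Pool.Agent.TH536.RJ.Ap

set_option autoImplicit false

/-! # Residue classes modulo `d` without small rough numbers

For every modulus `d` with `d ≤ A φ(d)` and few prime factors beyond `z(d)`, every interval of length `d^(7/10)`
contains an `a` prime to `d` such that all the numbers `a + k d` with
`k ≤ c R(d) log (log Y / log log d)` have a prime factor at most `Y`, uniformly for `(log d)^E ≤ Y ≤ d`. -/

namespace Pool.Agent.Results.MP_458f0b_nt.RoughProgressionGaps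

theorem result : ∀ A : ℝ, 0 ≤ A → ∃ c E : ℝ, 0 < c ∧ 1 ≤ E ∧ ∃ d₀ : ℕ, ∀ d : ℕ, d₀ ≤ d →
    (d : ℝ) ≤ A * (Nat.totient d : ℝ) →
    (∑ p ∈ d.primeFactors with
      Real.exp (Real.log (Real.log d) * Real.log (Real.log (Real.log (Real.log d))) /
        (20 * Real.log (Real.log (Real.log d)))) < ((p : ℕ) : ℝ), 1 / ((p : ℕ) : ℝ)) ≤
      A / Real.log (Real.log d) →
    ∀ Y : ℝ, (Real.log d) ^ E ≤ Y → Y ≤ d → ∀ M : ℕ,
    ∃ a : ℕ, M < a ∧ (a : ℝ) ≤ M + (d : ℝ) ^ (7 / 10 : ℝ) ∧ Nat.Coprime a d ∧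
      ∀ k : ℕ, (k : ℝ) ≤ c * (Real.log d * Real.log (Real.log d) *
          Real.log (Real.log (Real.log (Real.log d))) / (Real.log (Real.log (Real.log d))) ^ 2 *
          Real.log (Real.log Y / Real.log (Real.log d))) →
        ∃ p : ℕ, p.Prime ∧ (p : ℝ) ≤ Y ∧ p ∣ a + k * d := by
  intro A hA
  obtain ⟨c, E, hc, hE, d₀, h⟩ := Pool.Agent.TH536.RJ.rough_progression A hA
  refine ⟨c, E, hc, hE, d₀, fun d hd hphi hcond Y hY1 hY2 M => ?_⟩
  obtain ⟨a, h1, h2, h3, h4⟩ := h d hd hphi hcond Y hY1 hY2 M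
  refine ⟨a, h1, h2, h3, fun k hk => h4 k ?_⟩
  refine hk.trans (le_of_eq ?_)
  rfl

end Pool.Agent.Results.MP_458f0b_nt.RoughProgressionGaps
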