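import Pool.Agent.TH464.PO.GapS

set_option autoImplicit false

/-!
# The least almost primes of the residue classes modulo `q`: the joint law of the waiting times

Fix a modulus `q ≤ X ^ D`, and let the class `a` vary. Let `t` be good for `a` if `q t + a` has at
most `(D + 1) r` prime factors, all larger than `X ^ (1 / r)`. Let `V` and `W` be the products of
`1 - 1 / p` over the primes `p ≤ X ^ (1 / r)` which do not, and do, divide `q`; so `Y W` is the
number of the `a` prime to `q` in an interval of length `Y`, and the mean distance of two good `t`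
is `1 / V`, which is of the order `(φ(q) / q) log X`. Given `θ > 0` and an accuracy `ε`, for all
`r ≥ r0` and all large `X`, for EVERY `q ≤ X ^ D` and in ALL intervals `(Z, Z + Y]` of classes
inside `[0, X ^ (D + 1)]` of length `Y ≥ X ^ θ` (for instance `Z = 0`, `Y = q`: all reduced
classes): let `wait a j` be the distance between the `j`-th and `(j + 1)`-st good `t ≥ 1` (the
`0`-th being `0`). The proportion of the `a` in `(Z, Z + Y]` prime to `q` with `wait a j > t_j`
for all `j < s` is the product of the `e ^ (-t_j V)` up to `ε`, for ALL `t_0, ..., t_(s-1)`. So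
the first `s` almost primes of the class are distributed like the first `s` points of a Poisson
process; for `s = 1` this is the exponential law of the least almost prime of the class, on the
scale `φ(q) log X`.
-/

namespace Pool.Agent.Results.MP_458f0b_nt.WaitingTimes

open Finset Filter

/-- `N` has at most `B` prime factors (with multiplicity), all of them larger than `z`. -/
def AlmostPrime (B : ℕ) (z : ℝ) (N : ℕ) : Prop :=
  N.primeFactorsList.length ≤ B ∧ ∀ p : ℕ, p.Prime → p ∣ N → z < (p : ℝ)

/-- `t` is good for the class `a`: `q t + a` has at most `(D + 1) r` prime factors, all larger than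
`X ^ (1 / r)`. -/
def Good (D r X q a t : ℕ) : Prop :=
  AlmostPrime ((D + 1) * r) ((X : ℝ) ^ (1 / (r : ℝ))) (q * t + a)

/-- The sieve density of a class: the product of `1 - 1 / p` over the primes `p ≤ X ^ (1 / r)`
not dividing `q`. -/
noncomputable def V (r X q : ℕ) : ℝ :=
  ∏ p ∈ (Finset.range (⌊(X : ℝ) ^ (1 / (r : ℝ))⌋₊ + 1)).filter (fun p => p.Prime ∧ ¬ p ∣ q),
    (1 - 1 / (p : ℝ))

/-- The share of the classes: the product of `1 - 1 / p` over the primes `p ≤ X ^ (1 / r)` dividing
`q`. -/
noncomputable def W (r X q : ℕ) : ℝ :=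
  ∏ p ∈ (Finset.range (⌊(X : ℝ) ^ (1 / (r : ℝ))⌋₊ + 1)).filter (fun p => p.Prime ∧ p ∣ q),
    (1 - 1 / (p : ℝ))

/-- The next good `t` after `b`. -/
noncomputable def next (D r X q a : ℕ) (b : ℕ) : ℕ :=
  sInf {t | b < t ∧ Good D r X q a t}

/-- The `j`-th waiting time: the distance between the `j`-th and the `(j + 1)`-st good `t ≥ 1`, where
the `0`-th is `0` by convention. -/
noncomputable def wait (D r X q a j : ℕ) : ℕ :=
  (next D r X q a)^[j + 1] 0 - (next D r X q a)^[j] 0

open Pool.Agent.TH464.PO

open Classical in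
/-- **The joint law of the waiting times over the residue classes.** -/
theorem result (D : ℕ) (θ : ℝ) (hθ : 0 < θ) (s : ℕ) (ε : ℝ) (hε : 0 < ε) :
    ∃ r0 : ℕ, ∀ r : ℕ, r0 ≤ r → ∀ᶠ X : ℕ in atTop, ∀ q : ℕ, 1 ≤ q → q ≤ X ^ D →
      ∀ Z Y : ℕ, (X : ℝ) ^ θ ≤ Y → Z + Y ≤ X ^ (D + 1) → ∀ t : Fin s → ℕ,
        |(((Finset.Ioc Z (Z + Y)).filter (fun a => Nat.Coprime a q ∧
            ∀ j : Fin s, t j < wait D r X q a j)).card : ℝ) -
          Y * W r X q * ∏ j, Real.exp (-(t j * V r X q))| ≤ ε * (Y * W r X q) := by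
  obtain ⟨r0, h⟩ := res_wait D θ hθ s ε hε
  refine ⟨r0, fun r hr => ?_⟩
  filter_upwards [h r hr] with X hX q hq hqX Z Y hY hZ t
  exact hX q hq hqX (Good D r X q) (V r X q) (W r X q) (fun _ _ => Iff.rfl) (V_Qo q _)
    (Wq_form q _) Z Y hY hZ t

end Pool.Agent.Results.MP_458f0b_nt.WaitingTimes
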